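import Pool.Agent.H66.SM.CEb
import Pool.Agent.H93.SM.Iface

set_option autoImplicit false
open Set Filter Topology MeasureTheory

/-! # Module CE of SM (MP_2e6055): expansion of Cardy's function -/

namespace Pool.Agent.H66.SM

open Pool.Agent.H13.Q1.Four (cardy)
open Pool.Agent.H93.SM (lam mco CE)

theorem cot_bd {x : ℝ} (h : 1 / 5 ≤ |Real.sin (x / 2)|) : |Real.cot (x / 2)| ≤ 5 := by
  rw [Real.cot_eq_cos_div_sin, abs_div, div_le_iff₀ (by linarith)]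
  have := Real.abs_cos_le_one (x / 2)
  linarith

/-- facts on the half-angle cotangents of the three marks -/
structure Geo (t1 t2 t3 a b c : ℝ) : Prop where
  ha : |a| ≤ 5
  hb : |b| ≤ 5
  hc : |c| ≤ 5
  hca : 1 / 5 ≤ c - a
  hab : a - b ≠ 0
  w1 : L1 (0 - t1) = -a / 2
  w4 : L1 (t3 - 0) = c / 2
  x1 : L2 (0 - t1) = -(1 + a ^ 2) / 4
  x4 : L2 (t3 - 0) = -(1 + c ^ 2) / 4
  w2 : L1 (t3 - t2) * (c - b) = -(b * c + 1) / 2
  w3 : L1 (t2 - t1) * (b - a) = -(a * b + 1) / 2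
  hlam : lam 0 t1 t2 t3 * (b - a) = b - c

theorem geo {t1 t2 t3 : ℝ} (m1 : 0 - t1 ∈ Icc (1 : ℝ) (11 / 2)) (m2 : t3 - t2 ∈ Icc (1 : ℝ) (11 / 2))
    (m3 : t2 - t1 ∈ Icc (1 : ℝ) (11 / 2)) (m4 : t3 - 0 ∈ Icc (1 : ℝ) (11 / 2))
    (m5 : t2 - 0 ∈ Icc (1 : ℝ) (11 / 2)) (m6 : t3 - t1 ∈ Icc (1 : ℝ) (11 / 2)) :
    Geo t1 t2 t3 (Real.cot (t1 / 2)) (Real.cot (t2 / 2)) (Real.cot (t3 / 2)) := by
  have s1 := sin_low m1
  have s2 := sin_low m5
  have s3 := sin_low m4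
  have s31 := sin_low m6
  have s21 := sin_low m3
  have s32 := sin_low m2
  have e1 : Real.sin ((0 - t1) / 2) = -Real.sin (t1 / 2) := by
    rw [← Real.sin_neg]; congr 1; ring
  have c1 : Real.cos ((0 - t1) / 2) = Real.cos (t1 / 2) := by
    rw [← Real.cos_neg]; congr 1; ring
  rw [sub_zero] at s2 s3
  rw [e1] at s1
  have u1 := Real.neg_one_le_sin (t1 / 2)
  have u3 := Real.sin_le_one (t3 / 2)
  have ns1 : Real.sin (t1 / 2) < 0 := by linarith
  have ps2 : 0 < Real.sin (t2 / 2) := by linarith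
  have ps3 : 0 < Real.sin (t3 / 2) := by linarith
  have ps21 : 0 < Real.sin ((t2 - t1) / 2) := by linarith
  have ps32 : 0 < Real.sin ((t3 - t2) / 2) := by linarith
  have n1 := ns1.ne
  have n2 := ps2.ne'
  have n3 := ps3.ne'
  have hfa : |Real.cot (t1 / 2)| ≤ 5 := cot_bd (by rw [abs_of_neg ns1]; exact s1)
  have hfb : |Real.cot (t2 / 2)| ≤ 5 := cot_bd (by rw [abs_of_pos ps2]; exact s2)
  have hfc : |Real.cot (t3 / 2)| ≤ 5 := cot_bd (by rw [abs_of_pos ps3]; exact s3)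
  generalize hadef : Real.cot (t1 / 2) = a at hfa ⊢
  generalize hbdef : Real.cot (t2 / 2) = b at hfb ⊢
  generalize hcdef : Real.cot (t3 / 2) = c at hfc ⊢
  have ha' : a = Real.cos (t1 / 2) / Real.sin (t1 / 2) := by
    rw [← hadef]; exact Real.cot_eq_cos_div_sin _
  have hb' : b = Real.cos (t2 / 2) / Real.sin (t2 / 2) := by
    rw [← hbdef]; exact Real.cot_eq_cos_div_sin _
  have hc' : c = Real.cos (t3 / 2) / Real.sin (t3 / 2) := by
    rw [← hcdef]; exact Real.cot_eq_cos_div_sin _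
  -- differences of cotangents
  have d32 : Real.sin ((t3 - t2) / 2) = (b - c) * (Real.sin (t2 / 2) * Real.sin (t3 / 2)) := by
    rw [hb', hc', sub_div, Real.sin_sub]
    field_simp
  have d21 : Real.sin ((t2 - t1) / 2) = (a - b) * (Real.sin (t1 / 2) * Real.sin (t2 / 2)) := by
    rw [ha', hb', sub_div, Real.sin_sub]
    field_simp
  have d31 : Real.sin ((t3 - t1) / 2) = (c - a) * (-Real.sin (t1 / 2) * Real.sin (t3 / 2)) := by
    rw [ha', hc', sub_div, Real.sin_sub]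
    field_simp
    ring
  have k32 : Real.cos ((t3 - t2) / 2) = (b * c + 1) * (Real.sin (t2 / 2) * Real.sin (t3 / 2)) := by
    rw [hb', hc', sub_div, Real.cos_sub]
    field_simp
  have k21 : Real.cos ((t2 - t1) / 2) = (a * b + 1) * (Real.sin (t1 / 2) * Real.sin (t2 / 2)) := by
    rw [ha', hb', sub_div, Real.cos_sub]
    field_simp
  have hX : 0 < -Real.sin (t1 / 2) * Real.sin (t3 / 2) := mul_pos (by linarith) ps3
  have hX1 : -Real.sin (t1 / 2) * Real.sin (t3 / 2) ≤ 1 * 1 :=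
    mul_le_mul (by linarith) u3 ps3.le zero_le_one
  have hca : 1 / 5 ≤ c - a := by
    rw [eq_div_of_mul_eq hX.ne' d31.symm, le_div_iff₀ hX]
    linarith
  have hbc : b - c ≠ 0 := by
    intro h
    rw [h, zero_mul] at d32
    exact ps32.ne' d32
  have hab : a - b ≠ 0 := by
    intro h
    rw [h, zero_mul] at d21
    exact ps21.ne' d21
  refine ⟨hfa, hfb, hfc, hca, hab, ?_, ?_, ?_, ?_, ?_, ?_, ?_⟩
  · unfold L1; rw [e1, c1, ha']; field_simp
  · unfold L1; rw [sub_zero, hc']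
  · unfold L2; rw [e1, ha']
    have := Real.sin_sq_add_cos_sq (t1 / 2)
    field_simp
    linear_combination this
  · unfold L2; rw [sub_zero, hc']
    have := Real.sin_sq_add_cos_sq (t3 / 2)
    field_simp
    linear_combination this
  · unfold L1; rw [k32, d32]
    field_simp
    ring
  · unfold L1; rw [k21, d21]
    field_simp
    ring
  · unfold lam
    rw [e1, d32, d21, sub_zero]
    field_simp
    ring

theorem log_step {t1 t2 t3 a b c r W S t1' t2' t3' : ℝ} (G : Geo t1 t2 t3 a b c)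
    (m1 : 0 - t1 ∈ Icc (1 : ℝ) (11 / 2)) (m2 : t3 - t2 ∈ Icc (1 : ℝ) (11 / 2))
    (m3 : t2 - t1 ∈ Icc (1 : ℝ) (11 / 2)) (m4 : t3 - 0 ∈ Icc (1 : ℝ) (11 / 2))
    (m1' : W - t1' ∈ Icc (1 : ℝ) (11 / 2)) (m2' : t3' - t2' ∈ Icc (1 : ℝ) (11 / 2))
    (m3' : t2' - t1' ∈ Icc (1 : ℝ) (11 / 2)) (m4' : t3' - W ∈ Icc (1 : ℝ) (11 / 2))
    (hr : 0 < r) (hr1 : r ≤ 1) (hW : |W| ≤ 2 * r) (hS : |S| ≤ 2 * r ^ 2)
    (g1 : |t1' - t1 - S * a| ≤ r ^ 3) (g2 : |t2' - t2 - S * b| ≤ r ^ 3)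
    (g3 : |t3' - t3 - S * c| ≤ r ^ 3) :
    |(L (W - t1') + L (t3' - t2') - L (t2' - t1') - L (t3' - W)) -
      (L (0 - t1) + L (t3 - t2) - L (t2 - t1) - L (t3 - 0)) -
      ((c - a) / 2 * W + (c - a) / 2 * (a + c) * W ^ 2 / 4 - (c - a) / 2 * (a + b + c) * S)| ≤
      C1 * r ^ 3 := by
  have T1 := L_taylor m1 m1'
  have T2 := L_taylor m2 m2'
  have T3 := L_taylor m3 m3'
  have T4 := L_taylor m4 m4'
  have w1 := G.w1
  have w4 := G.w4
  have bL1 := L1_bd m2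
  have bL1' := L1_bd m3
  have b1 := L2_bd m1
  have b2 := L2_bd m2
  have b3 := L2_bd m3
  have b4 := L2_bd m4
  have x1 := G.x1
  have x4 := G.x4
  have w2 := G.w2
  have w3 := G.w3
  generalize L (W - t1') = y1 at *
  generalize L (t3' - t2') = y2 at *
  generalize L (t2' - t1') = y3 at *
  generalize L (t3' - W) = y4 at *
  generalize L (0 - t1) = z1 at *
  generalize L (t3 - t2) = z2 at *
  generalize L (t2 - t1) = z3 at *
  generalize L (t3 - 0) = z4 at *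
  generalize L1 (0 - t1) = l1 at *
  generalize L1 (t3 - t2) = l2 at *
  generalize L1 (t2 - t1) = l3 at *
  generalize L1 (t3 - 0) = l4 at *
  generalize L2 (0 - t1) = q1 at *
  generalize L2 (t3 - t2) = q2 at *
  generalize L2 (t2 - t1) = q3 at *
  generalize L2 (t3 - 0) = q4 at *
  have A := algA (a := a) (b := b) (c := c) (W := W) (S := S) (e1 := t1' - t1 - S * a)
    (e2 := t2' - t2 - S * b) (e3 := t3' - t3 - S * c) (q2 := q2) (q3 := q3)
    (R1 := y1 - z1 - l1 * (W - t1' - (0 - t1)) - q1 * (W - t1' - (0 - t1)) ^ 2 / 2)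
    (R2 := y2 - z2 - l2 * (t3' - t2' - (t3 - t2)) - q2 * (t3' - t2' - (t3 - t2)) ^ 2 / 2)
    (R3 := y3 - z3 - l3 * (t2' - t1' - (t2 - t1)) - q3 * (t2' - t1' - (t2 - t1)) ^ 2 / 2)
    (R4 := y4 - z4 - l4 * (t3' - W - (t3 - 0)) - q4 * (t3' - W - (t3 - 0)) ^ 2 / 2)
    (d1 := W - t1' - (0 - t1))
    (d2 := t3' - t2' - (t3 - t2)) (d3 := t2' - t1' - (t2 - t1)) (d4 := t3' - W - (t3 - 0))
    w2 w3 x1 x4 (by ring) (by ring) (by ring) (by ring)
  have B := bdA (a := a) (b := b) (c := c) (W := W) (S := S) (e1 := t1' - t1 - S * a)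
    (e2 := t2' - t2 - S * b) (e3 := t3' - t3 - S * c) (d1 := W - t1' - (0 - t1))
    (d2 := t3' - t2' - (t3 - t2)) (d3 := t2' - t1' - (t2 - t1)) (d4 := t3' - W - (t3 - 0))
    hr hr1 G.ha G.hb G.hc hW hS g1 g2 g3 bL1 bL1' b1 b2
    b3 b4 T1 T2 T3 T4 (by ring) (by ring) (by ring) (by ring)
  rw [← A] at B
  refine le_of_eq_of_le ?_ B
  congr 1
  rw [w1, w4]
  ring

theorem fin_step {t1 t2 t3 a b c r W S l1 : ℝ} (G : Geo t1 t2 t3 a b c)
    (q1 : 1 / 25 ≤ lam 0 t1 t2 t3) (q3 : lam 0 t1 t2 t3 ≤ 24 / 25)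
    (q1' : 1 / 25 ≤ l1) (q3' : l1 ≤ 24 / 25)
    (hr : 0 < r) (hr1 : r ≤ 1) (hW : |W| ≤ 2 * r) (hS : |S| ≤ 2 * r ^ 2)
    (B : |Real.log l1 - Real.log (lam 0 t1 t2 t3) -
      ((c - a) / 2 * W + (c - a) / 2 * (a + c) * W ^ 2 / 4 - (c - a) / 2 * (a + b + c) * S)| ≤
      C1 * r ^ 3) :
    |cardy l1 - cardy (lam 0 t1 t2 t3) -
      H1 (Real.log (lam 0 t1 t2 t3)) * ((c - a) / 2) * (W - (a + b + c) * (S - W ^ 2 / 6))| ≤
      (25 * K0 * C1 + 425 * K0 * (1 / 2) * ((C1 + 200) * (C1 + 220)) +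
        18000 * K0 * (C1 + 210) ^ 3) * r ^ 3 := by
  have hlam := G.hlam
  generalize lam 0 t1 t2 t3 = l0 at *
  have pl0 : 0 < l0 := by linarith
  have hexp : Real.exp (Real.log l0) = l0 := Real.exp_log pl0
  have hu0s : Real.log l0 ∈ sH := by rw [mem_sH, hexp]; exact q3
  have pl1 : 0 < l1 := by linarith
  have hexp1 : Real.exp (Real.log l1) = l1 := Real.exp_log pl1
  have hu1s : Real.log l1 ∈ sH := by rw [mem_sH, hexp1]; exact q3'
  have hRH := H_taylor hu0s hu1s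
  have hF1 : Hf (Real.log l1) = cardy l1 := by unfold Hf; rw [hexp1]
  have hF0 : Hf (Real.log l0) = cardy l0 := by unfold Hf; rw [hexp]
  rw [hF1, hF0] at hRH
  have hH1b := H1_bd hu0s
  have hp0 : |(c - a) / 2| ≤ 5 := by
    have := sb G.hc G.ha
    rw [abs_div, abs_of_pos (show (0 : ℝ) < 2 by norm_num), div_le_iff₀ (by norm_num)]
    linarith
  have hid : H2 (Real.log l0) * ((c - a) / 2) ^ 2 / 2 =
      H1 (Real.log l0) * ((c - a) / 2) * ((a + b + c) / 6 - (a + c) / 4) := by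
    have k1 : (1 + l0) * (c - a) = (2 * b - a - c) * (1 - l0) := by
      have k2 : (a - b) * ((1 + l0) * (c - a) - (2 * b - a - c) * (1 - l0)) = 0 := by
        linear_combination (-2 * b + 2 * a) * hlam
      rcases mul_eq_zero.1 k2 with h | h
      · exact absurd h G.hab
      · linarith
    have k3 : 1 - l0 ≠ 0 := by linarith
    unfold H2
    rw [hexp]
    have k4 : (1 + l0) / (1 - l0) / 3 * (c - a) = (2 * b - a - c) / 3 := by
      rw [div_div, div_mul_eq_mul_div, k1]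
      field_simp
    linear_combination (H1 (Real.log l0) * (c - a) / 8) * k4
  have hB := algB (b := b) (F := cardy l1 - cardy l0) (u := Real.log l1 - Real.log l0) (W := W) (S := S)
    rfl rfl hid
  have hm : |a + b + c| ≤ 15 := (ab (ab G.ha G.hb) G.hc).trans (by norm_num)
  have hac : |a + c| ≤ 10 := (ab G.ha G.hc).trans (by norm_num)
  have hg0 : |H1 (Real.log l0)| ≤ 25 * K0 := by rw [abs_of_pos hH1b.1]; exact hH1b.2
  have hfin := bdB (b := b) K0_pos hr hr1 hp0 hm hac hW hS rfl B hg0 (H2_bd hu0s) hRH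
  rw [← hB] at hfin
  exact hfin

theorem D_low {l0 p : ℝ} (q1 : 1 / 25 ≤ l0) (q3 : l0 ≤ 24 / 25) (hp : 1 / 10 ≤ p) :
    K0 / 250 ≤ H1 (Real.log l0) * p := by
  have hK := K0_pos
  have pl0 : 0 < l0 := by linarith
  have hexp : Real.exp (Real.log l0) = l0 := Real.exp_log pl0
  have hu0n : Real.log l0 ≤ 0 := Real.log_nonpos pl0.le (by linarith)
  have hH1 : K0 / 25 ≤ H1 (Real.log l0) := by
    unfold H1
    have a1 : 1 / 25 ≤ Real.exp (Real.log l0 / 3) := by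
      refine q1.trans ?_
      conv_lhs => rw [← hexp]
      exact Real.exp_le_exp.2 (by linarith)
    have a2 : 1 ≤ (1 - Real.exp (Real.log l0)) ^ (-2 / 3 : ℝ) := by
      rw [hexp]
      exact Real.one_le_rpow_of_pos_of_le_one_of_nonpos (by linarith) (by linarith) (by norm_num)
    have a3 : (1 / 25 : ℝ) * 1 ≤ Real.exp (Real.log l0 / 3) *
        (1 - Real.exp (Real.log l0)) ^ (-2 / 3 : ℝ) :=
      mul_le_mul a1 a2 zero_le_one (Real.exp_pos _).le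
    have a4 := mul_le_mul_of_nonneg_left a3 hK.le
    rw [← mul_assoc] at a4
    linarith
  have a1 : K0 / 25 * (1 / 10) ≤ H1 (Real.log l0) * p :=
    mul_le_mul hH1 hp (by norm_num) ((by positivity : (0 : ℝ) ≤ K0 / 25).trans hH1)
  linarith

theorem ce : CE := by
  have hK := K0_pos
  refine ⟨1 / 100, K0 / 250, 25 * K0 * C1 + 425 * K0 * (1 / 2) * ((C1 + 200) * (C1 + 220)) +
        18000 * K0 * (C1 + 210) ^ 3, by norm_num, by positivity, ?_⟩
  intro t1 t2 t3 h1 h2 h3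
  have hp1 := Real.pi_gt_d2
  have hp2 := Real.pi_lt_d2
  -- ranges
  have r1 : -2.11 ≤ t1 ∧ t1 ≤ -1.56 := by
    rcases h1 with h | h
    · rw [abs_le] at h; constructor <;> linarith
    · rw [abs_le] at h; constructor <;> linarith
  have r2 : 1.56 ≤ t2 ∧ t2 ≤ 1.585 := by
    rw [abs_le] at h2; constructor <;> linarith
  have r3 : 3.13 ≤ t3 ∧ t3 ≤ 3.16 := by
    rw [abs_le] at h3; constructor <;> linarith
  clear h1 h2 h3 hp1 hp2
  obtain ⟨r1, r1'⟩ := r1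
  obtain ⟨r2, r2'⟩ := r2
  obtain ⟨r3, r3'⟩ := r3
  have m1 : 0 - t1 ∈ Icc (1 : ℝ) (11 / 2) := ⟨by linarith, by linarith⟩
  have m2 : t3 - t2 ∈ Icc (1 : ℝ) (11 / 2) := ⟨by linarith, by linarith⟩
  have m3 : t2 - t1 ∈ Icc (1 : ℝ) (11 / 2) := ⟨by linarith, by linarith⟩
  have m4 : t3 - 0 ∈ Icc (1 : ℝ) (11 / 2) := ⟨by linarith, by linarith⟩
  have m5 : t2 - 0 ∈ Icc (1 : ℝ) (11 / 2) := ⟨by linarith, by linarith⟩
  have m6 : t3 - t1 ∈ Icc (1 : ℝ) (11 / 2) := ⟨by linarith, by linarith⟩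
  have G := geo m1 m2 m3 m4 m5 m6
  obtain ⟨q1, q2⟩ := lam_pos m1 m2 m3 m4
  have q3 := lam_le m1 m2 m3 m4 m5 m6
  change 1 / 25 ≤ lam 0 t1 t2 t3 at q1
  change Real.log (lam 0 t1 t2 t3) = _ at q2
  change lam 0 t1 t2 t3 ≤ 24 / 25 at q3
  have hmco : mco t1 t2 t3 = Real.cot (t1 / 2) + Real.cot (t2 / 2) + Real.cot (t3 / 2) := by
    unfold mco; ring
  rw [hmco]
  refine ⟨H1 (Real.log (lam 0 t1 t2 t3)) * ((Real.cot (t3 / 2) - Real.cot (t1 / 2)) / 2),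
    D_low q1 q3 (by linarith [G.hca]), ?_⟩
  intro r W S t1' t2' t3' hr hr1 hW hS0 hS g1 g2 g3
  generalize Real.cot (t1 / 2) = a at *
  generalize Real.cot (t2 / 2) = b at *
  generalize Real.cot (t3 / 2) = c at *
  have hSabs : |S| ≤ 2 * r ^ 2 := by rw [abs_of_nonneg hS0]; exact hS
  have hr2 : r ^ 2 ≤ 1 / 10000 := by
    have := pow_le_pow_left₀ hr.le hr1 2
    norm_num at this ⊢
    exact this
  have hr3 : r ^ 3 ≤ 1 / 1000000 := by
    have := pow_le_pow_left₀ hr.le hr1 3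
    norm_num at this ⊢
    exact this
  have mv : ∀ x y z : ℝ, |y - x - S * z| ≤ r ^ 3 → |z| ≤ 5 → |y - x| ≤ 1 / 100 := by
    intro x y z h hz
    have e : y - x = (y - x - S * z) + S * z := by ring
    rw [e]
    refine (ab h (mb hSabs hz)).trans ?_
    linarith
  obtain ⟨v1, v1'⟩ := abs_le.1 (mv _ _ _ g1 G.ha)
  obtain ⟨v2, v2'⟩ := abs_le.1 (mv _ _ _ g2 G.hb)
  obtain ⟨v3, v3'⟩ := abs_le.1 (mv _ _ _ g3 G.hc)
  obtain ⟨vW, vW'⟩ := abs_le.1 (hW.trans (by linarith : 2 * r ≤ 1 / 50))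
  have m1' : W - t1' ∈ Icc (1 : ℝ) (11 / 2) := ⟨by linarith, by linarith⟩
  have m2' : t3' - t2' ∈ Icc (1 : ℝ) (11 / 2) := ⟨by linarith, by linarith⟩
  have m3' : t2' - t1' ∈ Icc (1 : ℝ) (11 / 2) := ⟨by linarith, by linarith⟩
  have m4' : t3' - W ∈ Icc (1 : ℝ) (11 / 2) := ⟨by linarith, by linarith⟩
  have m5' : t2' - W ∈ Icc (1 : ℝ) (11 / 2) := ⟨by linarith, by linarith⟩
  have m6' : t3' - t1' ∈ Icc (1 : ℝ) (11 / 2) := ⟨by linarith, by linarith⟩
  obtain ⟨q1', q2'⟩ := lam_pos m1' m2' m3' m4'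
  have q3' := lam_le m1' m2' m3' m4' m5' m6'
  change 1 / 25 ≤ lam W t1' t2' t3' at q1'
  change Real.log (lam W t1' t2' t3') = _ at q2'
  change lam W t1' t2' t3' ≤ 24 / 25 at q3'
  have B := log_step G m1 m2 m3 m4 m1' m2' m3' m4' hr (by linarith) hW hSabs g1 g2 g3
  rw [← q2, ← q2'] at B
  exact fin_step G q1 q3 q1' q3' hr (by linarith) hW hSabs B

end Pool.Agent.H66.SM
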