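import Pool.Agent.H13.Q1.FourH

set_option autoImplicit false
open Set Filter Topology MeasureTheory

/-! # Module CE of SM (MP_2e6055): Taylor expansions -/

namespace Pool.Agent.H66.SM

open Pool.Agent.H13.Q1.Four (bet cardy bet_pos bet_meas bet_int bet_total_pos)

/-- Taylor's formula with a remainder of order three on a convex set. -/
theorem taylor3 {s : Set ℝ} (hs : Convex ℝ s) {f g h k : ℝ → ℝ} {M : ℝ}
    (hf : ∀ x ∈ s, HasDerivAt f (g x) x) (hg : ∀ x ∈ s, HasDerivAt g (h x) x)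
    (hh : ∀ x ∈ s, HasDerivAt h (k x) x) (hk : ∀ x ∈ s, |k x| ≤ M) {x y : ℝ} (hx : x ∈ s)
    (hy : y ∈ s) : |f y - f x - g x * (y - x) - h x * (y - x) ^ 2 / 2| ≤ M * |y - x| ^ 3 := by
  have hM : 0 ≤ M := (abs_nonneg _).trans (hk x hx)
  have hsub : uIcc x y ⊆ s := by
    rw [← segment_eq_uIcc]; exact hs.segment_subset hx hy
  have hc : Convex ℝ (uIcc x y) := convex_uIcc x y
  have hd : ∀ z ∈ uIcc x y, |z - x| ≤ |y - x| := by
    intro z hz
    exact abs_sub_left_of_mem_uIcc hz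
  have e1 : ∀ z ∈ uIcc x y, |h z - h x| ≤ M * |y - x| := by
    intro z hz
    have := hc.norm_image_sub_le_of_norm_hasDerivWithin_le
      (fun w hw => (hh w (hsub hw)).hasDerivWithinAt) (fun w hw => hk w (hsub hw))
      left_mem_uIcc hz
    exact this.trans (mul_le_mul_of_nonneg_left (hd z hz) hM)
  have e2 : ∀ z ∈ uIcc x y, |g z - g x - h x * (z - x)| ≤ M * |y - x| * |y - x| := by
    intro z hz
    have hder : ∀ w ∈ uIcc x y, HasDerivWithinAt (fun z => g z - g x - h x * (z - x))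
        (h w - h x) (uIcc x y) w := by
      intro w hw
      have h1 : HasDerivAt (fun z => h x * (z - x)) (h x * 1) w :=
        ((hasDerivAt_id w).sub_const x).const_mul _
      have h2 := ((hg w (hsub hw)).sub_const (g x)).sub h1
      rw [mul_one] at h2
      exact h2.hasDerivWithinAt
    have := hc.norm_image_sub_le_of_norm_hasDerivWithin_le hder e1 left_mem_uIcc hz
    simp only [sub_self, mul_zero, sub_zero] at this
    exact this.trans (mul_le_mul_of_nonneg_left (hd z hz) (by positivity))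
  have hder : ∀ w ∈ uIcc x y, HasDerivWithinAt
      (fun z => f z - f x - g x * (z - x) - h x * (z - x) ^ 2 / 2)
      (g w - g x - h x * (w - x)) (uIcc x y) w := by
    intro w hw
    have h1 : HasDerivAt (fun z => g x * (z - x)) (g x * 1) w :=
      ((hasDerivAt_id w).sub_const x).const_mul _
    have h3 : HasDerivAt (fun z => h x * (z - x) ^ 2 / 2) (h x * (w - x)) w := by
      have := ((((hasDerivAt_id w).sub_const x).pow 2).const_mul (h x)).div_const 2
      refine this.congr_deriv ?_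
      simp
      ring
    have h2 := (((hf w (hsub hw)).sub_const (f x)).sub h1).sub h3
    rw [mul_one] at h2
    exact h2.hasDerivWithinAt
  have := hc.norm_image_sub_le_of_norm_hasDerivWithin_le hder e2 left_mem_uIcc right_mem_uIcc
  simp only [sub_self, mul_zero, sub_zero, ne_eq, OfNat.ofNat_ne_zero, not_false_eq_true,
    zero_pow, zero_div, Real.norm_eq_abs] at this
  refine this.trans (le_of_eq ?_)
  ring

/-- lower bound of the sine -/
theorem sin_low {x : ℝ} (hx : x ∈ Icc (1 : ℝ) (11 / 2)) : 1 / 5 ≤ Real.sin (x / 2) := by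
  have hp1 := Real.pi_gt_d2
  have hp2 := Real.pi_lt_d2
  have key : ∀ y : ℝ, 7 / 20 ≤ y → y ≤ Real.pi / 2 → 1 / 5 ≤ Real.sin y := by
    intro y h1 h2
    have h3 := Real.mul_le_sin (by linarith : 0 ≤ y) h2
    refine le_trans ?_ h3
    rw [div_mul_eq_mul_div, le_div_iff₀ Real.pi_pos]
    linarith
  rcases le_total (x / 2) (Real.pi / 2) with h | h
  · exact key _ (by linarith [hx.1]) h
  · rw [← Real.sin_pi_sub]
    exact key _ (by linarith [hx.2]) (by linarith)

/-- the logarithm of the half-angle sine and its derivatives -/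
noncomputable def L (x : ℝ) : ℝ := Real.log (Real.sin (x / 2))
noncomputable def L1 (x : ℝ) : ℝ := Real.cos (x / 2) / Real.sin (x / 2) / 2
noncomputable def L2 (x : ℝ) : ℝ := -(1 / (4 * Real.sin (x / 2) ^ 2))
noncomputable def L3 (x : ℝ) : ℝ := Real.cos (x / 2) / (4 * Real.sin (x / 2) ^ 3)

theorem sin_half_der (x : ℝ) : HasDerivAt (fun x : ℝ => Real.sin (x / 2))
    (Real.cos (x / 2) / 2) x := by
  have := ((hasDerivAt_id x).div_const 2).sin
  refine this.congr_deriv ?_
  simp; ring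

theorem cos_half_der (x : ℝ) : HasDerivAt (fun x : ℝ => Real.cos (x / 2))
    (-Real.sin (x / 2) / 2) x := by
  have := ((hasDerivAt_id x).div_const 2).cos
  refine this.congr_deriv ?_
  simp; ring

theorem L_der {x : ℝ} (hx : Real.sin (x / 2) ≠ 0) : HasDerivAt L (L1 x) x := by
  refine ((sin_half_der x).log hx).congr_deriv ?_
  unfold L1; ring

theorem L1_der {x : ℝ} (hx : Real.sin (x / 2) ≠ 0) : HasDerivAt L1 (L2 x) x := by
  refine (((cos_half_der x).div (sin_half_der x) hx).div_const 2).congr_deriv ?_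
  unfold L2
  field_simp
  have := Real.sin_sq_add_cos_sq (x / 2)
  linear_combination (-4) * this

theorem L2_der {x : ℝ} (hx : Real.sin (x / 2) ≠ 0) : HasDerivAt L2 (L3 x) x := by
  have h1 : HasDerivAt (fun x : ℝ => 4 * Real.sin (x / 2) ^ 2)
      (4 * (2 * Real.sin (x / 2) * (Real.cos (x / 2) / 2))) x := by
    have := ((sin_half_der x).pow 2).const_mul 4
    refine HasDerivAt.congr_deriv (f := fun x : ℝ => 4 * Real.sin (x / 2) ^ 2) this ?_
    simp
  have h2 := ((hasDerivAt_const x (1 : ℝ)).div h1 (by positivity)).neg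
  refine HasDerivAt.congr_deriv (f := L2) h2 ?_
  unfold L3
  field_simp
  ring

theorem L3_bd {x : ℝ} (hx : x ∈ Icc (1 : ℝ) (11 / 2)) : |L3 x| ≤ 32 := by
  have h1 := sin_low hx
  have h2 : 0 < Real.sin (x / 2) := by linarith
  unfold L3
  rw [abs_div, abs_of_pos (show 0 < 4 * Real.sin (x / 2) ^ 3 by positivity),
    div_le_iff₀ (by positivity)]
  have h3 : (1 / 5 : ℝ) ^ 3 ≤ Real.sin (x / 2) ^ 3 := pow_le_pow_left₀ (by norm_num) h1 3
  have h4 := Real.abs_cos_le_one (x / 2)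
  nlinarith

theorem L1_bd {x : ℝ} (hx : x ∈ Icc (1 : ℝ) (11 / 2)) : |L1 x| ≤ 3 := by
  have h1 := sin_low hx
  have h2 : 0 < Real.sin (x / 2) := by linarith
  unfold L1
  rw [div_div, abs_div, abs_of_pos (show 0 < Real.sin (x / 2) * 2 by positivity),
    div_le_iff₀ (by positivity)]
  have h4 := Real.abs_cos_le_one (x / 2)
  nlinarith

theorem L2_bd {x : ℝ} (hx : x ∈ Icc (1 : ℝ) (11 / 2)) : |L2 x| ≤ 7 := by
  have h1 := sin_low hx
  have h2 : 0 < Real.sin (x / 2) := by linarith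
  unfold L2
  rw [abs_neg, abs_div, abs_one, abs_of_pos (show 0 < 4 * Real.sin (x / 2) ^ 2 by positivity),
    div_le_iff₀ (by positivity)]
  have h3 : (1 / 5 : ℝ) ^ 2 ≤ Real.sin (x / 2) ^ 2 := pow_le_pow_left₀ (by norm_num) h1 2
  nlinarith

theorem L_taylor {x y : ℝ} (hx : x ∈ Icc (1 : ℝ) (11 / 2)) (hy : y ∈ Icc (1 : ℝ) (11 / 2)) :
    |L y - L x - L1 x * (y - x) - L2 x * (y - x) ^ 2 / 2| ≤ 32 * |y - x| ^ 3 := by
  have hne : ∀ z ∈ Icc (1 : ℝ) (11 / 2), Real.sin (z / 2) ≠ 0 := by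
    intro z hz
    have := sin_low hz
    linarith
  exact taylor3 (convex_Icc _ _) (fun z hz => L_der (hne z hz)) (fun z hz => L1_der (hne z hz))
    (fun z hz => L2_der (hne z hz)) (fun z hz => L3_bd hz) hx hy

/-! ## Cardy's function in the logarithmic variable -/

/-- the normalisation -/
noncomputable def K0 : ℝ := 1 / ∫ s in (0 : ℝ)..1, bet s

theorem K0_pos : 0 < K0 := by
  unfold K0; exact div_pos one_pos bet_total_pos

noncomputable def Hf (u : ℝ) : ℝ := cardy (Real.exp u)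
noncomputable def H1 (u : ℝ) : ℝ := K0 * Real.exp (u / 3) * (1 - Real.exp u) ^ (-2 / 3 : ℝ)
noncomputable def H2 (u : ℝ) : ℝ := H1 u * ((1 + Real.exp u) / (1 - Real.exp u) / 3)
noncomputable def H3 (u : ℝ) : ℝ := H2 u * ((1 + Real.exp u) / (1 - Real.exp u) / 3) +
  H1 u * (2 * Real.exp u / (1 - Real.exp u) ^ 2 / 3)

theorem cardy_der {l : ℝ} (h0 : 0 < l) (h1 : l < 1) : HasDerivAt cardy (K0 * bet l) l := by
  have hc : ContinuousAt bet l := by
    unfold bet
    refine ContinuousAt.mul ?_ ?_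
    · exact Real.continuousAt_rpow_const _ _ (Or.inl h0.ne')
    · have h2 : (1 : ℝ) - l ≠ 0 := by linarith
      exact (continuousAt_const.sub continuousAt_id).rpow_const (Or.inl h2)
  have h2 := intervalIntegral.integral_hasDerivAt_right
    (bet_int (left_mem_Icc.2 zero_le_one) (⟨h0.le, h1.le⟩ : l ∈ Icc (0 : ℝ) 1))
    bet_meas.stronglyMeasurable.stronglyMeasurableAtFilter hc
  have h3 := h2.div_const (∫ s in (0 : ℝ)..1, bet s)
  refine HasDerivAt.congr_deriv (f := cardy) h3 ?_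
  unfold K0; ring

theorem H_der {u : ℝ} (hu : Real.exp u < 1) : HasDerivAt Hf (H1 u) u := by
  have h1 := (cardy_der (Real.exp_pos u) hu).comp u (Real.hasDerivAt_exp u)
  refine HasDerivAt.congr_deriv (f := Hf) h1 ?_
  unfold H1 bet
  rw [← Real.exp_mul]
  have e1 : Real.exp (u / 3) = Real.exp (u * (-2 / 3)) * Real.exp u := by
    rw [← Real.exp_add]; congr 1; ring
  rw [e1]; ring

theorem H1_der {u : ℝ} (hu : Real.exp u < 1) : HasDerivAt H1 (H2 u) u := by
  have h0 : 0 < 1 - Real.exp u := by linarith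
  have h1 : HasDerivAt (fun u : ℝ => 1 - Real.exp u) (-Real.exp u) u :=
    (Real.hasDerivAt_exp u).const_sub 1
  have h2 := h1.rpow_const (p := (-2 / 3 : ℝ)) (Or.inl h0.ne')
  have h3 : HasDerivAt (fun u : ℝ => K0 * Real.exp (u / 3)) (K0 * (Real.exp (u / 3) * (1 / 3))) u :=
    ((((hasDerivAt_id u).div_const 3)).exp).const_mul K0
  refine (h3.mul h2).congr_deriv ?_
  unfold H2 H1
  have e1 : (1 - Real.exp u) ^ (-2 / 3 - 1 : ℝ) = (1 - Real.exp u) ^ (-2 / 3 : ℝ) / (1 - Real.exp u) := by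
    rw [Real.rpow_sub h0, Real.rpow_one]
  rw [e1]
  field_simp
  ring

theorem H2_der {u : ℝ} (hu : Real.exp u < 1) : HasDerivAt H2 (H3 u) u := by
  have h0 : 0 < 1 - Real.exp u := by linarith
  have h1 : HasDerivAt (fun u : ℝ => 1 - Real.exp u) (-Real.exp u) u :=
    (Real.hasDerivAt_exp u).const_sub 1
  have h2 : HasDerivAt (fun u : ℝ => 1 + Real.exp u) (Real.exp u) u :=
    (Real.hasDerivAt_exp u).const_add 1
  have h3 : HasDerivAt (fun u : ℝ => (1 + Real.exp u) / (1 - Real.exp u) / 3)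
      ((Real.exp u * (1 - Real.exp u) - (1 + Real.exp u) * (-Real.exp u)) /
        (1 - Real.exp u) ^ 2 / 3) u := (h2.div h1 h0.ne').div_const 3
  refine HasDerivAt.congr_deriv (f := H2) ((H1_der hu).mul h3) ?_
  unfold H3
  field_simp
  ring

/-- the domain of the expansion of Cardy's function -/
def sH : Set ℝ := Iic (Real.log (24 / 25))

theorem mem_sH {u : ℝ} : u ∈ sH ↔ Real.exp u ≤ 24 / 25 := by
  unfold sH
  rw [mem_Iic, Real.le_log_iff_exp_le (by norm_num)]

theorem H1_bd {u : ℝ} (hu : u ∈ sH) : 0 < H1 u ∧ H1 u ≤ 25 * K0 := by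
  rw [mem_sH] at hu
  have h0 : 1 / 25 ≤ 1 - Real.exp u := by linarith
  have h1 : 0 < 1 - Real.exp u := by linarith
  have hK := K0_pos
  have h2 : Real.exp (u / 3) ≤ 1 := by
    rw [Real.exp_le_one_iff]
    have : Real.exp u < 1 := by linarith
    rw [Real.exp_lt_one_iff] at this
    linarith
  have h3 : (1 - Real.exp u) ^ (-2 / 3 : ℝ) ≤ 25 := by
    calc (1 - Real.exp u) ^ (-2 / 3 : ℝ) ≤ (1 / 25 : ℝ) ^ (-2 / 3 : ℝ) :=
          Real.rpow_le_rpow_of_nonpos (by norm_num) h0 (by norm_num)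
      _ ≤ (1 / 25 : ℝ) ^ (-1 : ℝ) :=
          Real.rpow_le_rpow_of_exponent_ge (by norm_num) (by norm_num) (by norm_num)
      _ = 25 := by rw [Real.rpow_neg_one]; norm_num
  have h4 : 0 < (1 - Real.exp u) ^ (-2 / 3 : ℝ) := by positivity
  have h5 := Real.exp_pos (u / 3)
  unfold H1
  refine ⟨by positivity, ?_⟩
  have h6 : Real.exp (u / 3) * (1 - Real.exp u) ^ (-2 / 3 : ℝ) ≤ 1 * 25 :=
    mul_le_mul h2 h3 h4.le (by norm_num)
  nlinarith

theorem ratio_bd {u : ℝ} (hu : u ∈ sH) : 0 < (1 + Real.exp u) / (1 - Real.exp u) / 3 ∧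
    (1 + Real.exp u) / (1 - Real.exp u) / 3 ≤ 17 := by
  rw [mem_sH] at hu
  have h1 : 0 < 1 - Real.exp u := by linarith
  have h2 := Real.exp_pos u
  refine ⟨by positivity, ?_⟩
  rw [div_div, div_le_iff₀ (by positivity)]
  nlinarith

theorem H2_bd {u : ℝ} (hu : u ∈ sH) : |H2 u| ≤ 425 * K0 := by
  have h1 := H1_bd hu
  have h2 := ratio_bd hu
  unfold H2
  rw [abs_mul, abs_of_pos h1.1, abs_of_pos h2.1]
  calc _ ≤ 25 * K0 * 17 := mul_le_mul h1.2 h2.2 h2.1.le (by linarith [K0_pos])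
    _ = 425 * K0 := by ring

theorem H3_bd {u : ℝ} (hu : u ∈ sH) : |H3 u| ≤ 18000 * K0 := by
  have h1 := H1_bd hu
  have h2 := ratio_bd hu
  have h3 := H2_bd hu
  have hK := K0_pos
  have hu' := mem_sH.1 hu
  have h0 : 1 / 25 ≤ 1 - Real.exp u := by linarith
  have h4 := Real.exp_pos u
  have h5 : 0 < 2 * Real.exp u / (1 - Real.exp u) ^ 2 / 3 := by
    have : 0 < 1 - Real.exp u := by linarith
    positivity
  have h6 : 2 * Real.exp u / (1 - Real.exp u) ^ 2 / 3 ≤ 417 := by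
    have : 0 < 1 - Real.exp u := by linarith
    rw [div_div, div_le_iff₀ (by positivity)]
    have h7 : (1 / 25 : ℝ) ^ 2 ≤ (1 - Real.exp u) ^ 2 := pow_le_pow_left₀ (by norm_num) h0 2
    nlinarith
  unfold H3
  refine (abs_add_le _ _).trans ?_
  rw [abs_mul, abs_mul (H1 u), abs_of_pos h2.1, abs_of_pos h1.1, abs_of_pos h5]
  have h8 : |H2 u| * ((1 + Real.exp u) / (1 - Real.exp u) / 3) ≤ 425 * K0 * 17 :=
    mul_le_mul h3 h2.2 h2.1.le (by positivity)
  have h9 : H1 u * (2 * Real.exp u / (1 - Real.exp u) ^ 2 / 3) ≤ 25 * K0 * 417 :=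
    mul_le_mul h1.2 h6 h5.le (by positivity)
  linarith

theorem H_taylor {x y : ℝ} (hx : x ∈ sH) (hy : y ∈ sH) :
    |Hf y - Hf x - H1 x * (y - x) - H2 x * (y - x) ^ 2 / 2| ≤ 18000 * K0 * |y - x| ^ 3 := by
  have hne : ∀ z ∈ sH, Real.exp z < 1 := by
    intro z hz
    have := mem_sH.1 hz
    linarith
  exact taylor3 (convex_Iic _) (fun z hz => H_der (hne z hz)) (fun z hz => H1_der (hne z hz))
    (fun z hz => H2_der (hne z hz)) (fun z hz => H3_bd hz) hx hy

end Pool.Agent.H66.SM
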