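import Pool.Agent.H66.SM.CEa

set_option autoImplicit false
open Set Filter Topology MeasureTheory

/-! # Module CE of SM (MP_2e6055): algebra and the expansion -/

namespace Pool.Agent.H66.SM

open Pool.Agent.H13.Q1.Four (cardy)

theorem ab {x y A B : ℝ} (hx : |x| ≤ A) (hy : |y| ≤ B) : |x + y| ≤ A + B :=
  (abs_add_le x y).trans (add_le_add hx hy)

theorem sb {x y A B : ℝ} (hx : |x| ≤ A) (hy : |y| ≤ B) : |x - y| ≤ A + B := by
  rw [sub_eq_add_neg]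
  exact ab hx (by rwa [abs_neg])

theorem mb {x y A B : ℝ} (hx : |x| ≤ A) (hy : |y| ≤ B) : |x * y| ≤ A * B := by
  rw [abs_mul]
  exact mul_le_mul hx hy (abs_nonneg _) ((abs_nonneg _).trans hx)

theorem algA {a b c W S e1 e2 e3 l2 l3 q1 q2 q3 q4 R1 R2 R3 R4 d1 d2 d3 d4 : ℝ}
    (h2 : l2 * (c - b) = -(b * c + 1) / 2) (h3 : l3 * (b - a) = -(a * b + 1) / 2)
    (hq1 : q1 = -(1 + a ^ 2) / 4) (hq4 : q4 = -(1 + c ^ 2) / 4)
    (hd1 : d1 = W - (S * a + e1)) (hd2 : d2 = S * (c - b) + (e3 - e2))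
    (hd3 : d3 = S * (b - a) + (e2 - e1)) (hd4 : d4 = S * c + e3 - W) :
    ((-a / 2) * d1 + q1 * d1 ^ 2 / 2 + R1) + (l2 * d2 + q2 * d2 ^ 2 / 2 + R2) -
      (l3 * d3 + q3 * d3 ^ 2 / 2 + R3) - ((c / 2) * d4 + q4 * d4 ^ 2 / 2 + R4) -
      ((c - a) / 2 * W + (c - a) / 2 * (a + c) * W ^ 2 / 4 - (c - a) / 2 * (a + b + c) * S) =
    a / 2 * e1 + l2 * (e3 - e2) - l3 * (e2 - e1) - c / 2 * e3 + q1 / 2 * ((d1 - W) * (d1 + W)) +
      q2 / 2 * (d2 * d2) - q3 / 2 * (d3 * d3) - q4 / 2 * ((d4 + W) * (d4 - W)) +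
      R1 + R2 - R3 - R4 := by
  linear_combination (-a / 2) * hd1 + l2 * hd2 - l3 * hd3 - (c / 2) * hd4 + S * h2 - S * h3 +
    W ^ 2 / 2 * hq1 - W ^ 2 / 2 * hq4

/-- the constant of the remainder of the logarithm -/
def C1 : ℝ := 830000

theorem bdA {r a b c W S e1 e2 e3 l2 l3 q1 q2 q3 q4 R1 R2 R3 R4 d1 d2 d3 d4 : ℝ} (hr : 0 < r)
    (hr1 : r ≤ 1) (ha : |a| ≤ 5) (hb : |b| ≤ 5) (hc : |c| ≤ 5) (hW : |W| ≤ 2 * r)
    (hS : |S| ≤ 2 * r ^ 2) (he1 : |e1| ≤ r ^ 3) (he2 : |e2| ≤ r ^ 3) (he3 : |e3| ≤ r ^ 3)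
    (hl2 : |l2| ≤ 3) (hl3 : |l3| ≤ 3) (hq1 : |q1| ≤ 7) (hq2 : |q2| ≤ 7) (hq3 : |q3| ≤ 7)
    (hq4 : |q4| ≤ 7) (hR1 : |R1| ≤ 32 * |d1| ^ 3) (hR2 : |R2| ≤ 32 * |d2| ^ 3)
    (hR3 : |R3| ≤ 32 * |d3| ^ 3) (hR4 : |R4| ≤ 32 * |d4| ^ 3)
    (hd1 : d1 = W - (S * a + e1)) (hd2 : d2 = S * (c - b) + (e3 - e2))
    (hd3 : d3 = S * (b - a) + (e2 - e1)) (hd4 : d4 = S * c + e3 - W) :
    |a / 2 * e1 + l2 * (e3 - e2) - l3 * (e2 - e1) - c / 2 * e3 + q1 / 2 * ((d1 - W) * (d1 + W)) +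
      q2 / 2 * (d2 * d2) - q3 / 2 * (d3 * d3) - q4 / 2 * ((d4 + W) * (d4 - W)) +
      R1 + R2 - R3 - R4| ≤ C1 * r ^ 3 := by
  have p2 : r ^ 2 ≤ r := by nlinarith
  have p3 : r ^ 3 ≤ r ^ 2 := by nlinarith [sq_nonneg r]
  have p4 : r ^ 4 ≤ r ^ 3 := by nlinarith [pow_pos hr 3]
  have p0 : 0 < r ^ 3 := by positivity
  have hSa := mb hS ha
  have hSc := mb hS hc
  have hScb := mb hS (sb hc hb)
  have hSba := mb hS (sb hb ha)
  have b1m : |d1 - W| ≤ 11 * r ^ 2 := by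
    have : d1 - W = -(S * a + e1) := by rw [hd1]; ring
    rw [this, abs_neg]
    refine (ab hSa he1).trans ?_
    nlinarith
  have b1p : |d1 + W| ≤ 15 * r := by
    have : d1 + W = (d1 - W) + (W + W) := by ring
    rw [this]
    refine (ab b1m (ab hW hW)).trans ?_
    nlinarith
  have b4p : |d4 + W| ≤ 11 * r ^ 2 := by
    have : d4 + W = S * c + e3 := by rw [hd4]; ring
    rw [this]
    refine (ab hSc he3).trans ?_
    nlinarith
  have b4m : |d4 - W| ≤ 15 * r := by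
    have : d4 - W = (d4 + W) - (W + W) := by ring
    rw [this]
    refine (sb b4p (ab hW hW)).trans ?_
    nlinarith
  have b1 : |d1| ≤ 13 * r := by
    have : d1 = (d1 - W) + W := by ring
    rw [this]
    refine (ab b1m hW).trans ?_
    nlinarith
  have b4 : |d4| ≤ 13 * r := by
    have : d4 = (d4 + W) - W := by ring
    rw [this]
    refine (sb b4p hW).trans ?_
    nlinarith
  have b2 : |d2| ≤ 22 * r ^ 2 := by
    rw [hd2]
    refine (ab hScb (sb he3 he2)).trans ?_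
    nlinarith
  have b3 : |d3| ≤ 22 * r ^ 2 := by
    rw [hd3]
    refine (ab hSba (sb he2 he1)).trans ?_
    nlinarith
  have b2' : |d2| ≤ 22 * r := b2.trans (by nlinarith)
  have b3' : |d3| ≤ 22 * r := b3.trans (by nlinarith)
  have c1 : |R1| ≤ 32 * (13 * r) ^ 3 := hR1.trans (by gcongr)
  have c2 : |R2| ≤ 32 * (22 * r) ^ 3 := hR2.trans (by gcongr)
  have c3 : |R3| ≤ 32 * (22 * r) ^ 3 := hR3.trans (by gcongr)
  have c4 : |R4| ≤ 32 * (13 * r) ^ 3 := hR4.trans (by gcongr)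
  have two : |(2 : ℝ)⁻¹| ≤ 1 / 2 := by norm_num [abs_of_pos]
  have ha2 : |a / 2| ≤ 5 * (1 / 2) := mb ha two
  have hc2 : |c / 2| ≤ 5 * (1 / 2) := mb hc two
  have hq1' : |q1 / 2| ≤ 7 * (1 / 2) := mb hq1 two
  have hq2' : |q2 / 2| ≤ 7 * (1 / 2) := mb hq2 two
  have hq3' : |q3 / 2| ≤ 7 * (1 / 2) := mb hq3 two
  have hq4' : |q4 / 2| ≤ 7 * (1 / 2) := mb hq4 two
  have := sb (sb (ab (ab (sb (sb (ab (ab (sb (sb (ab (mb ha2 he1) (mb hl2 (sb he3 he2)))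
    (mb hl3 (sb he2 he1))) (mb hc2 he3)) (mb hq1' (mb b1m b1p))) (mb hq2' (mb b2 b2')))
    (mb hq3' (mb b3 b3'))) (mb hq4' (mb b4p b4m))) c1) c2) c3) c4
  refine this.trans ?_
  unfold C1
  nlinarith

/-- assembly of the two expansions -/
theorem algB {g0 h0 a b c p m W S u R F T : ℝ} (hT : T = u - (p * W + p * (a + c) * W ^ 2 / 4 -
    p * m * S)) (hR : R = F - g0 * u - h0 * u ^ 2 / 2)
    (hid : h0 * p ^ 2 / 2 = g0 * p * (m / 6 - (a + c) / 4)) :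
    F - g0 * p * (W - m * (S - W ^ 2 / 6)) =
      g0 * T + h0 / 2 * ((u - p * W) * (u + p * W)) + R := by
  rw [hT, hR]
  linear_combination W ^ 2 * hid

theorem bdB {r g0 h0 a b c p m W S u R T K : ℝ} (hK : 0 < K) (hr : 0 < r)
    (hr1 : r ≤ 1) (hp : |p| ≤ 5) (hm : |m| ≤ 15) (hac : |a + c| ≤ 10) (hW : |W| ≤ 2 * r)
    (hS : |S| ≤ 2 * r ^ 2) (hT : T = u - (p * W + p * (a + c) * W ^ 2 / 4 - p * m * S))
    (hTb : |T| ≤ C1 * r ^ 3) (hg : |g0| ≤ 25 * K) (hh : |h0| ≤ 425 * K)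
    (hR : |R| ≤ 18000 * K * |u| ^ 3) :
    |g0 * T + h0 / 2 * ((u - p * W) * (u + p * W)) + R| ≤
      (25 * K * C1 + 425 * K * (1 / 2) * ((C1 + 200) * (C1 + 220)) +
        18000 * K * (C1 + 210) ^ 3) * r ^ 3 := by
  have p2 : r ^ 2 ≤ r := by nlinarith
  have p3 : r ^ 3 ≤ r ^ 2 := by nlinarith [sq_nonneg r]
  have hC : (0 : ℝ) < C1 := by unfold C1; norm_num
  have two : |(2 : ℝ)⁻¹| ≤ 1 / 2 := by norm_num [abs_of_pos]
  have four : |(4 : ℝ)⁻¹| ≤ 1 / 4 := by norm_num [abs_of_pos]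
  have hpW := mb hp hW
  have hW2 : |W ^ 2| ≤ (2 * r) * (2 * r) := by rw [sq]; exact mb hW hW
  have b1 : |u - p * W| ≤ (C1 + 200) * r ^ 2 := by
    have e : u - p * W = T + (p * (a + c) * W ^ 2 / 4 - p * m * S) := by rw [hT]; ring
    rw [e]
    have := ab hTb (sb (mb (mb (mb hp hac) hW2) four) (mb (mb hp hm) hS))
    rw [div_eq_mul_inv]
    refine this.trans ?_
    have : C1 * r ^ 3 ≤ C1 * r ^ 2 := mul_le_mul_of_nonneg_left p3 hC.le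
    nlinarith
  have b2 : |u + p * W| ≤ (C1 + 220) * r := by
    have e : u + p * W = (u - p * W) + (p * W + p * W) := by ring
    rw [e]
    refine (ab b1 (ab hpW hpW)).trans ?_
    have : (C1 + 200) * r ^ 2 ≤ (C1 + 200) * r := mul_le_mul_of_nonneg_left p2 (by positivity)
    nlinarith
  have b3 : |u| ≤ (C1 + 210) * r := by
    have e : u = (u - p * W) + p * W := by ring
    rw [e]
    refine (ab b1 hpW).trans ?_
    have : (C1 + 200) * r ^ 2 ≤ (C1 + 200) * r := mul_le_mul_of_nonneg_left p2 (by positivity)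
    nlinarith
  have b4 : |R| ≤ 18000 * K * ((C1 + 210) * r) ^ 3 := hR.trans (by gcongr)
  have hh2 : |h0 / 2| ≤ 425 * K * (1 / 2) := mb hh two
  refine (ab (ab (mb hg hTb) (mb hh2 (mb b1 b2))) b4).trans (le_of_eq ?_)
  ring

/-! ## The cross ratio -/

theorem lam_pos {y1 y2 y3 y4 : ℝ} (h1 : y1 ∈ Icc (1 : ℝ) (11 / 2)) (h2 : y2 ∈ Icc (1 : ℝ) (11 / 2))
    (h3 : y3 ∈ Icc (1 : ℝ) (11 / 2)) (h4 : y4 ∈ Icc (1 : ℝ) (11 / 2)) :
    1 / 25 ≤ Real.sin (y1 / 2) * Real.sin (y2 / 2) / (Real.sin (y3 / 2) * Real.sin (y4 / 2)) ∧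
    Real.log (Real.sin (y1 / 2) * Real.sin (y2 / 2) / (Real.sin (y3 / 2) * Real.sin (y4 / 2))) =
      L y1 + L y2 - L y3 - L y4 := by
  have s1 := sin_low h1
  have s2 := sin_low h2
  have s3 := sin_low h3
  have s4 := sin_low h4
  have u3 := Real.sin_le_one (y3 / 2)
  have u4 := Real.sin_le_one (y4 / 2)
  have p1 : 0 < Real.sin (y1 / 2) := by linarith
  have p2 : 0 < Real.sin (y2 / 2) := by linarith
  have p3 : 0 < Real.sin (y3 / 2) := by linarith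
  have p4 : 0 < Real.sin (y4 / 2) := by linarith
  constructor
  · rw [le_div_iff₀ (by positivity)]
    have a1 : Real.sin (y3 / 2) * Real.sin (y4 / 2) ≤ 1 * 1 := mul_le_mul u3 u4 p4.le zero_le_one
    have a2 : (1 / 5 : ℝ) * (1 / 5) ≤ Real.sin (y1 / 2) * Real.sin (y2 / 2) :=
      mul_le_mul s1 s2 (by norm_num) p1.le
    nlinarith
  · rw [Real.log_div (by positivity) (by positivity), Real.log_mul p1.ne' p2.ne',
      Real.log_mul p3.ne' p4.ne']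
    unfold L; ring

theorem ptolemy (A B C D : ℝ) : Real.sin ((B - A) / 2) * Real.sin ((C - D) / 2) -
    Real.sin ((D - A) / 2) * Real.sin ((C - B) / 2) =
    Real.sin ((B - D) / 2) * Real.sin ((C - A) / 2) := by
  simp only [sub_div, Real.sin_sub]
  ring

theorem lam_le {w t1 t2 t3 : ℝ} (h1 : w - t1 ∈ Icc (1 : ℝ) (11 / 2))
    (h2 : t3 - t2 ∈ Icc (1 : ℝ) (11 / 2)) (h3 : t2 - t1 ∈ Icc (1 : ℝ) (11 / 2))
    (h4 : t3 - w ∈ Icc (1 : ℝ) (11 / 2)) (h5 : t2 - w ∈ Icc (1 : ℝ) (11 / 2))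
    (h6 : t3 - t1 ∈ Icc (1 : ℝ) (11 / 2)) :
    Real.sin ((w - t1) / 2) * Real.sin ((t3 - t2) / 2) /
      (Real.sin ((t2 - t1) / 2) * Real.sin ((t3 - w) / 2)) ≤ 24 / 25 := by
  have s3 := sin_low h3
  have s4 := sin_low h4
  have s5 := sin_low h5
  have s6 := sin_low h6
  have u3 := Real.sin_le_one ((t2 - t1) / 2)
  have u4 := Real.sin_le_one ((t3 - w) / 2)
  have p3 : 0 < Real.sin ((t2 - t1) / 2) := by linarith
  have p4 : 0 < Real.sin ((t3 - w) / 2) := by linarith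
  have p5 : 0 < Real.sin ((t2 - w) / 2) := by linarith
  rw [div_le_iff₀ (by positivity)]
  have hp := ptolemy t1 t2 t3 w
  have a1 : Real.sin ((t2 - t1) / 2) * Real.sin ((t3 - w) / 2) ≤ 1 * 1 :=
    mul_le_mul u3 u4 p4.le zero_le_one
  have a2 : (1 / 5 : ℝ) * (1 / 5) ≤ Real.sin ((t2 - w) / 2) * Real.sin ((t3 - t1) / 2) :=
    mul_le_mul s5 s6 (by norm_num) p5.le
  nlinarith

end Pool.Agent.H66.SM
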